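import Pool.Agent.H3.RCR.Stmts

/-!
# Project RCR, module G1: a general point is covered once inside and never outside
-/

namespace Pool.Agent.H98.RCR

open Pool.Agent.H3.RCR

/-! ### rotations and orientations -/

theorem orient_rot (P Q R : Pt) : orient P Q R = orient Q R P := by
  simp only [orient, dt, Prod.fst_sub, Prod.snd_sub]; ring

theorem orient_swap (P Q R : Pt) : orient Q P R = - orient P Q R := by
  simp only [orient, dt, Prod.fst_sub, Prod.snd_sub]; ring

theorem orient_split (P Q R z : Pt) :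
    orient P Q R = orient P Q z + orient Q R z + orient R P z := by
  simp only [orient, dt, Prod.fst_sub, Prod.snd_sub]; ring

theorem orient_self (P z : Pt) : orient P P z = 0 := by
  simp only [orient, dt, Prod.fst_sub, Prod.snd_sub]; ring

theorem orient_self' (P Q : Pt) : orient P Q P = 0 := by
  simp only [orient, dt, Prod.fst_sub, Prod.snd_sub]; ring

theorem orient_self'' (P Q : Pt) : orient P Q Q = 0 := by
  simp only [orient, dt, Prod.fst_sub, Prod.snd_sub]; ring

theorem orient_mem_rots {p : ℕ → Pt} {s t : Tri} (h : s ∈ rots t) :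
    orient (p s.1) (p s.2.1) (p s.2.2) = orient (p t.1) (p t.2.1) (p t.2.2) := by
  rcases mem_rots.1 h with rfl | rfl | rfl
  · rfl
  · exact (orient_rot _ _ _).symm
  · exact (orient_rot _ _ _)

theorem mem_rots_symm {s t : Tri} (h : s ∈ rots t) : t ∈ rots s := by
  obtain ⟨a, b, c⟩ := t
  rcases mem_rots.1 h with rfl | rfl | rfl <;> simp [rots]

theorem mem_rots_trans {s t u : Tri} (h : s ∈ rots t) (h' : t ∈ rots u) : s ∈ rots u := by
  obtain ⟨a, b, c⟩ := u
  rcases mem_rots.1 h' with rfl | rfl | rfl <;> rcases mem_rots.1 h with rfl | rfl | rfl <;>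
    simp [rots]

theorem real_ne {F : Finset Tri} {o : Tri} {p : ℕ → Pt} (hR : Real F o p) {t : Tri}
    (ht : t ∈ F) : orient (p t.1) (p t.2.1) (p t.2.2) ≠ 0 := by
  by_cases h : t ∈ rots o
  · rw [orient_mem_rots h]; exact hR.neg.ne
  · exact (hR.pos t ht h).ne'

theorem real_neg {F : Finset Tri} {o : Tri} {p : ℕ → Pt} (hR : Real F o p) {t : Tri}
    (h : t ∈ rots o) : orient (p t.1) (p t.2.1) (p t.2.2) < 0 := by
  rw [orient_mem_rots h]; exact hR.neg

theorem inT_rots {p : ℕ → Pt} {s t : Tri} {z : Pt} (h : s ∈ rots t) : InT p s z ↔ InT p t z := by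
  rcases mem_rots.1 h with rfl | rfl | rfl <;> simp only [InT] <;> tauto

theorem inN_rots {p : ℕ → Pt} {s t : Tri} {z : Pt} (h : s ∈ rots t) : InN p s z ↔ InN p t z := by
  rcases mem_rots.1 h with rfl | rfl | rfl <;> simp only [InN] <;> tauto

theorem inT_pos {p : ℕ → Pt} {t : Tri} {z : Pt} (h : InT p t z) :
    0 < orient (p t.1) (p t.2.1) (p t.2.2) := by
  rw [orient_split _ _ _ z]; obtain ⟨h1, h2, h3⟩ := h; linarith

theorem inN_neg {p : ℕ → Pt} {t : Tri} {z : Pt} (h : InN p t z) :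
    orient (p t.1) (p t.2.1) (p t.2.2) < 0 := by
  rw [orient_split _ _ _ z]; obtain ⟨h1, h2, h3⟩ := h; linarith

/-! ### sums over darts -/

/-- an antisymmetric function of darts has sum zero -/
theorem sum_anti {F : Finset Tri} (hF : Pre F) (ψ : ℕ → ℕ → ℤ) (hψ : ∀ a b, ψ a b = - ψ b a) :
    ∑ t ∈ F, ψ t.1 t.2.1 = 0 := by
  classical
  have key : ∀ t : Tri, ∃ d, t ∈ F → (t.2.1, t.1, d) ∈ F := by
    rintro ⟨a, b, c⟩
    by_cases h : (a, b, c) ∈ F
    · obtain ⟨d, hd⟩ := hF.opp _ _ _ h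
      exact ⟨d, fun _ => hd⟩
    · exact ⟨0, fun h' => absurd h' h⟩
  choose g hg using key
  refine Finset.sum_involution (fun t _ => (t.2.1, t.1, g t)) ?_ ?_ ?_ ?_
  · rintro ⟨a, b, c⟩ h
    simp only
    rw [hψ a b]; ring
  · rintro ⟨a, b, c⟩ h _ he
    simp only [Prod.mk.injEq] at he
    exact hF.ne _ _ _ h he.2.1
  · rintro ⟨a, b, c⟩ h
    exact hg _ h
  · rintro ⟨a, b, c⟩ h
    have h1 := hg _ h
    have h2 := hg _ h1
    simp only at h1 h2 ⊢
    exact Prod.ext rfl (Prod.ext rfl (hF.uniq _ _ _ _ h2 h))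

/-- sums over a rotation closed set -/
theorem sum_rot {S : Finset Tri} (hS : RotC S) {M : Type*} [AddCommMonoid M] (g : Tri → M) :
    ∑ t ∈ S, g (t.2.1, t.2.2, t.1) = ∑ t ∈ S, g t := by
  refine Finset.sum_nbij' (fun t => (t.2.1, t.2.2, t.1)) (fun t => (t.2.2, t.1, t.2.1)) ?_ ?_ ?_
    ?_ ?_
  · rintro ⟨a, b, c⟩ h; exact hS _ _ _ h
  · rintro ⟨a, b, c⟩ h; exact hS _ _ _ (hS _ _ _ h)
  · rintro ⟨a, b, c⟩ _; rfl
  · rintro ⟨a, b, c⟩ _; rfl
  · rintro ⟨a, b, c⟩ _; rfl

/-! ### the crossing function -/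

open Classical in
/-- signed crossing of the segment `P Q` with the vertical ray from `z` -/
noncomputable def cr (z P Q : Pt) : ℤ :=
  (if P.1 < z.1 ∧ z.1 < Q.1 ∧ orient P Q z < 0 then 1 else 0) -
    (if Q.1 < z.1 ∧ z.1 < P.1 ∧ orient Q P z < 0 then 1 else 0)

theorem cr_anti (z P Q : Pt) : cr z P Q = - cr z Q P := by
  unfold cr; ring

open Classical in
theorem cr_tri (z P Q R : Pt) (hP : z.1 ≠ P.1) (hQ : z.1 ≠ Q.1) (hR : z.1 ≠ R.1)
    (h1 : orient P Q z ≠ 0) (h2 : orient Q R z ≠ 0) (h3 : orient R P z ≠ 0) :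
    cr z P Q + cr z Q R + cr z R P =
      (if orient P Q z < 0 ∧ orient Q R z < 0 ∧ orient R P z < 0 then 1 else 0) -
      (if 0 < orient P Q z ∧ 0 < orient Q R z ∧ 0 < orient R P z then 1 else 0) := by
  have hid : (R.1 - z.1) * orient P Q z + (P.1 - z.1) * orient Q R z +
      (Q.1 - z.1) * orient R P z = 0 := by
    simp only [orient, dt, Prod.fst_sub, Prod.snd_sub]; ring
  unfold cr
  rw [orient_swap P Q z, orient_swap Q R z, orient_swap R P z]
  generalize orient P Q z = a at *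
  generalize orient Q R z = b at *
  generalize orient R P z = c at *
  generalize P.1 = x at *
  generalize Q.1 = y at *
  generalize R.1 = w at *
  generalize z.1 = u at *
  rcases lt_or_gt_of_ne hP with hP | hP <;> rcases lt_or_gt_of_ne hQ with hQ | hQ <;>
    rcases lt_or_gt_of_ne hR with hR | hR <;> rcases lt_or_gt_of_ne h1 with h1 | h1 <;>
    rcases lt_or_gt_of_ne h2 with h2 | h2 <;> rcases lt_or_gt_of_ne h3 with h3 | h3 <;>
    (try simp only [hP, hQ, hR, h1, h2, h3, not_lt.2 hP.le, not_lt.2 hQ.le, not_lt.2 hR.le,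
      not_lt.2 h1.le, not_lt.2 h2.le, not_lt.2 h3.le, neg_neg_iff_pos, neg_pos, if_true, if_false,
      and_true, true_and, and_false, false_and, sub_zero, zero_sub, add_zero, zero_add]) <;>
    (try norm_num) <;>
    exfalso <;>
    first
    | nlinarith [mul_pos (sub_pos.2 hR) h1, mul_pos (sub_pos.2 hP) h2,
        mul_pos (sub_pos.2 hQ) h3]
    | nlinarith [mul_pos (sub_pos.2 hR) h1, mul_pos (sub_pos.2 hP) h2,
        mul_pos (sub_pos.2 hQ) (neg_pos.2 h3)]
    | nlinarith [mul_pos (sub_pos.2 hR) h1, mul_pos (sub_pos.2 hP) (neg_pos.2 h2),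
        mul_pos (sub_pos.2 hQ) h3]
    | nlinarith [mul_pos (sub_pos.2 hR) h1, mul_pos (sub_pos.2 hP) (neg_pos.2 h2),
        mul_pos (sub_pos.2 hQ) (neg_pos.2 h3)]
    | nlinarith [mul_pos (sub_pos.2 hR) (neg_pos.2 h1), mul_pos (sub_pos.2 hP) h2,
        mul_pos (sub_pos.2 hQ) h3]
    | nlinarith [mul_pos (sub_pos.2 hR) (neg_pos.2 h1), mul_pos (sub_pos.2 hP) h2,
        mul_pos (sub_pos.2 hQ) (neg_pos.2 h3)]
    | nlinarith [mul_pos (sub_pos.2 hR) (neg_pos.2 h1), mul_pos (sub_pos.2 hP) (neg_pos.2 h2),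
        mul_pos (sub_pos.2 hQ) h3]
    | nlinarith [mul_pos (sub_pos.2 hR) (neg_pos.2 h1), mul_pos (sub_pos.2 hP) (neg_pos.2 h2),
        mul_pos (sub_pos.2 hQ) (neg_pos.2 h3)]


/-! ### the count -/

open Classical in
theorem card_eq {F : Finset Tri} {p : ℕ → Pt} {z : Pt} (hF : Pre F) (hg : Gen F p z) :
    (F.filter (fun t => InT p t z)).card = (F.filter (fun t => InN p t z)).card := by
  have h0 : ∑ t ∈ F, cr z (p t.1) (p t.2.1) = 0 :=
    sum_anti hF (fun a b => cr z (p a) (p b)) (fun a b => cr_anti _ _ _)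
  have h1 : ∑ t ∈ F, cr z (p t.2.1) (p t.2.2) = 0 := by
    rw [← h0]; exact sum_rot hF.rot (fun t => cr z (p t.1) (p t.2.1))
  have h2 : ∑ t ∈ F, cr z (p t.2.2) (p t.1) = 0 := by
    rw [← h1]; exact sum_rot hF.rot (fun t => cr z (p t.2.1) (p t.2.2))
  have h3 : ∑ t ∈ F, (cr z (p t.1) (p t.2.1) + cr z (p t.2.1) (p t.2.2) +
      cr z (p t.2.2) (p t.1)) = 0 := by
    rw [Finset.sum_add_distrib, Finset.sum_add_distrib, h0, h1, h2]; ring
  have h4 : ∑ t ∈ F, ((if InN p t z then (1 : ℤ) else 0) - (if InT p t z then 1 else 0)) = 0 := by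
    refine Eq.trans (Finset.sum_congr rfl ?_) h3
    rintro ⟨a, b, c⟩ ht
    have hb := hF.rot _ _ _ ht
    have hc := hF.rot2 ht
    have h5 := (cr_tri z (p a) (p b) (p c) (hg.1 _ (mem_verts.2 ⟨_, _, ht⟩))
      (hg.1 _ (mem_verts.2 ⟨_, _, hb⟩)) (hg.1 _ (mem_verts.2 ⟨_, _, hc⟩))
      (hg.2 _ _ _ ht) (hg.2 _ _ _ hb) (hg.2 _ _ _ hc)).symm
    convert h5 using 3 <;> exact Iff.rfl
  rw [Finset.sum_sub_distrib, ← Finset.sum_filter, ← Finset.sum_filter] at h4
  simp only [Finset.sum_const, nsmul_eq_mul, mul_one] at h4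
  have : ((F.filter (fun t => InT p t z)).card : ℤ) = (F.filter (fun t => InN p t z)).card := by
    linarith
  exact_mod_cast this

theorem card_rots {t : Tri} (h1 : t.1 ≠ t.2.1) (h2 : t.2.1 ≠ t.2.2) (h3 : t.2.2 ≠ t.1) :
    (rots t).card = 3 := by
  obtain ⟨a, b, c⟩ := t
  simp only at h1 h2 h3
  unfold rots
  rw [Finset.card_insert_of_notMem, Finset.card_pair]
  · simp only [ne_eq, Prod.mk.injEq, not_and]; intro h; exact absurd h h2
  · simp only [Finset.mem_insert, Finset.mem_singleton, Prod.mk.injEq, not_or, not_and]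
    exact ⟨fun h => absurd h h1, fun h => absurd h.symm h3⟩

theorem rots_subset {F : Finset Tri} (hF : Pre F) {t : Tri} (h : t ∈ F) : rots t ⊆ F := by
  intro s hs
  obtain ⟨a, b, c⟩ := t
  rcases mem_rots.1 hs with rfl | rfl | rfl
  · exact h
  · exact hF.rot _ _ _ h
  · exact hF.rot2 h

theorem g1 : G1Stmt := by
  classical
  intro F o p z hF hR hg
  have h1 : (F.filter (fun t => InT p t z)).card = (F.filter (fun t => InN p t z)).card := by
    convert card_eq hF hg
  have h2 : F.filter (fun t => InN p t z) = if InN p o z then rots o else ∅ := by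
    ext t
    rw [Finset.mem_filter]
    split_ifs with ho
    · constructor
      · rintro ⟨ht, hn⟩
        by_contra hto
        exact absurd (hR.pos t ht hto) (not_lt.2 (inN_neg hn).le)
      · intro ht
        exact ⟨rots_subset hF hR.mem ht, (inN_rots ht).2 ho⟩
    · simp only [Finset.notMem_empty, iff_false, not_and]
      intro ht hn
      by_cases hto : t ∈ rots o
      · exact ho ((inN_rots hto).1 hn)
      · exact absurd (hR.pos t ht hto) (not_lt.2 (inN_neg hn).le)
  have h3 : (F.filter (fun t => InT p t z)).card = if InN p o z then 3 else 0 := by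
    rw [h1, h2]
    split_ifs
    · have hnd := hF.nd (a := o.1) (b := o.2.1) (c := o.2.2) hR.mem
      exact card_rots hnd.1 hnd.2.1 hnd.2.2
    · rfl
  convert h3

end Pool.Agent.H98.RCR
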