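import Pool.Agent.H98.RCR.G1

/-!
# Project RCR, module G2: the faces are disjoint, lie inside the outer triangle and cover it
-/

namespace Pool.Agent.H98.RCR

open Pool.Agent.H3.RCR Filter Topology

theorem orient_add (P Q z w : Pt) : orient P Q (z + w) = orient P Q z + dt (Q - P) w := by
  simp only [orient, dt, Prod.fst_sub, Prod.snd_sub, Prod.fst_add, Prod.snd_add]; ring

theorem dt_smul (X w : Pt) (ε : ℝ) : dt X (ε • w) = ε * dt X w := by
  simp only [dt, Prod.smul_fst, Prod.smul_snd, smul_eq_mul]; ring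

theorem dt_add (X v w : Pt) : dt X (v + w) = dt X v + dt X w := by
  simp only [dt, Prod.fst_add, Prod.snd_add]; ring

theorem orient_add_smul (P Q z w : Pt) (ε : ℝ) :
    orient P Q (z + ε • w) = orient P Q z + ε * dt (Q - P) w := by
  rw [orient_add, dt_smul]

theorem ev_pos {α : ℝ} (β : ℝ) (h : 0 < α) : ∀ᶠ ε in 𝓝[>] (0 : ℝ), 0 < α + ε * β := by
  have hc : Continuous (fun ε : ℝ => α + ε * β) := by fun_prop
  have h0 : (0 : ℝ) < α + 0 * β := by simpa using h
  exact (nhdsWithin_le_nhds (s := Set.Ioi 0)) ((hc.tendsto 0).eventually (lt_mem_nhds h0))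

theorem ev_neg {α : ℝ} (β : ℝ) (h : α < 0) : ∀ᶠ ε in 𝓝[>] (0 : ℝ), α + ε * β < 0 := by
  filter_upwards [ev_pos (-β) (neg_pos.2 h)] with ε hε
  nlinarith

theorem ev_ne {α β : ℝ} (h : β ≠ 0) : ∀ᶠ ε in 𝓝[>] (0 : ℝ), α + ε * β ≠ 0 := by
  rcases lt_trichotomy α 0 with ha | ha | ha
  · exact (ev_neg β ha).mono fun ε h => h.ne
  · filter_upwards [self_mem_nhdsWithin] with ε hε
    rw [ha, zero_add]
    exact mul_ne_zero (ne_of_gt hε) h
  · exact (ev_pos β ha).mono fun ε h => h.ne'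

theorem edge_ne {F : Finset Tri} {o : Tri} {p : ℕ → Pt} (hR : Real F o p) {a b c : ℕ}
    (h : (a, b, c) ∈ F) : p b - p a ≠ 0 := by
  intro he
  have he' : p b = p a := sub_eq_zero.1 he
  have := real_ne hR h
  simp only [he'] at this
  exact this (orient_self _ _)

/-- a generic direction -/
theorem exists_dir {F : Finset Tri} {o : Tri} {p : ℕ → Pt} (hR : Real F o p) :
    ∃ w : Pt, w.1 ≠ 0 ∧ ∀ a b c, (a, b, c) ∈ F → dt (p b - p a) w ≠ 0 := by
  classical
  obtain ⟨s, hs⟩ := Infinite.exists_notMem_finset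
    (F.image (fun t => (p t.2.1 - p t.1).2 / (p t.2.1 - p t.1).1))
  refine ⟨(1, s), one_ne_zero, fun a b c h h0 => ?_⟩
  have hX := edge_ne hR h
  simp only [dt, mul_one] at h0
  by_cases hx : (p b - p a).1 = 0
  · apply hX
    refine Prod.ext hx ?_
    rw [hx, zero_mul] at h0
    show (p b - p a).2 = 0
    linarith
  · apply hs
    rw [Finset.mem_image]
    refine ⟨(a, b, c), h, ?_⟩
    simp only
    rw [div_eq_iff hx]
    linarith

/-- points near `z` in a generic direction are general -/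
theorem gen_near {F : Finset Tri} {o : Tri} {p : ℕ → Pt} (_hR : Real F o p) {w : Pt}
    (hw1 : w.1 ≠ 0) (hw : ∀ a b c, (a, b, c) ∈ F → dt (p b - p a) w ≠ 0) (z : Pt) :
    ∀ᶠ ε in 𝓝[>] (0 : ℝ), Gen F p (z + ε • w) := by
  have h1 : ∀ᶠ ε in 𝓝[>] (0 : ℝ), ∀ v ∈ verts F, (z + ε • w).1 ≠ (p v).1 := by
    rw [eventually_all_finset]
    intro v _
    filter_upwards [ev_ne (α := z.1 - (p v).1) hw1] with ε hε
    intro he
    apply hε
    simp only [Prod.fst_add, Prod.smul_fst, smul_eq_mul] at he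
    linarith
  have h2 : ∀ᶠ ε in 𝓝[>] (0 : ℝ), ∀ t ∈ F, orient (p t.1) (p t.2.1) (z + ε • w) ≠ 0 := by
    rw [eventually_all_finset]
    intro t ht
    filter_upwards [ev_ne (α := orient (p t.1) (p t.2.1) z) (hw t.1 t.2.1 t.2.2 ht)] with ε hε
    rw [orient_add_smul]
    exact hε
  filter_upwards [h1, h2] with ε h1 h2
  exact ⟨h1, fun a b c h => h2 _ h⟩

theorem inT_near {p : ℕ → Pt} {t : Tri} {z : Pt} (h : InT p t z) (w : Pt) :
    ∀ᶠ ε in 𝓝[>] (0 : ℝ), InT p t (z + ε • w) := by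
  filter_upwards [ev_pos _ h.1, ev_pos _ h.2.1, ev_pos _ h.2.2] with ε h1 h2 h3
  refine ⟨?_, ?_, ?_⟩
  · rw [orient_add_smul]; exact h1
  · rw [orient_add_smul]; exact h2
  · rw [orient_add_smul]; exact h3

theorem inN_near {p : ℕ → Pt} {t : Tri} {z : Pt} (h : InN p t z) (w : Pt) :
    ∀ᶠ ε in 𝓝[>] (0 : ℝ), InN p t (z + ε • w) := by
  filter_upwards [ev_neg _ h.1, ev_neg _ h.2.1, ev_neg _ h.2.2] with ε h1 h2 h3
  refine ⟨?_, ?_, ?_⟩
  · rw [orient_add_smul]; exact h1
  · rw [orient_add_smul]; exact h2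
  · rw [orient_add_smul]; exact h3

theorem g2_disj {F : Finset Tri} {o : Tri} {p : ℕ → Pt} (hF : Pre F) (hR : Real F o p) :
    ∀ s ∈ F, ∀ t ∈ F, ∀ z, InT p s z → InT p t z → t ∈ rots s := by
  classical
  intro s hs t ht z h1 h2
  by_contra hn
  obtain ⟨w, hw1, hw⟩ := exists_dir hR
  obtain ⟨ε, hg, h1, h2⟩ := ((gen_near hR hw1 hw z).and ((inT_near h1 w).and
    (inT_near h2 w))).exists
  have hc := g1 F o p (z + ε • w) hF hR hg
  have hle : (F.filter (fun t => InT p t (z + ε • w))).card ≤ 3 := by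
    have : (F.filter (fun t => InT p t (z + ε • w))).card = if InN p o (z + ε • w) then 3 else 0 := by
      convert hc
    rw [this]; split_ifs <;> simp
  have hsub : insert t (rots s) ⊆ F.filter (fun t => InT p t (z + ε • w)) := by
    intro u hu
    rw [Finset.mem_filter]
    rcases Finset.mem_insert.1 hu with rfl | hu
    · exact ⟨ht, h2⟩
    · exact ⟨rots_subset hF hs hu, (inT_rots hu).2 h1⟩
  have h4 := Finset.card_le_card hsub
  rw [Finset.card_insert_of_notMem hn] at h4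
  have hnd := hF.nd (a := s.1) (b := s.2.1) (c := s.2.2) hs
  rw [card_rots hnd.1 hnd.2.1 hnd.2.2] at h4
  omega

theorem g2_gen {F : Finset Tri} {o : Tri} {p : ℕ → Pt} (hF : Pre F) (hR : Real F o p)
    {z : Pt} (hg : Gen F p z) : (∃ t ∈ F, InT p t z) ↔ InN p o z := by
  classical
  have hc := g1 F o p z hF hR hg
  have hc' : (F.filter (fun t => InT p t z)).card = if InN p o z then 3 else 0 := by
    convert hc
  constructor
  · rintro ⟨t, ht, h⟩
    by_contra hn
    rw [if_neg hn, Finset.card_eq_zero] at hc'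
    have : t ∈ F.filter (fun t => InT p t z) := Finset.mem_filter.2 ⟨ht, h⟩
    rw [hc'] at this
    simp at this
  · intro h
    rw [if_pos h] at hc'
    have : 0 < (F.filter (fun t => InT p t z)).card := by omega
    obtain ⟨t, ht⟩ := Finset.card_pos.1 this
    exact ⟨t, (Finset.mem_filter.1 ht).1, (Finset.mem_filter.1 ht).2⟩

theorem edge_neg {F : Finset Tri} {o : Tri} {p : ℕ → Pt} (hF : Pre F) (hR : Real F o p)
    {P Q : Pt} (hPQ : Q - P ≠ 0) (hout : ∀ z, InN p o z → orient P Q z < 0)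
    {t : Tri} (ht : t ∈ F) {z : Pt} (h : InT p t z) : orient P Q z < 0 := by
  by_contra hn
  rw [not_lt] at hn
  set w' : Pt := (-(Q - P).2, (Q - P).1) with hw'
  have hpos : 0 < dt (Q - P) w' := by
    have h1 : dt (Q - P) w' = (Q - P).1 ^ 2 + (Q - P).2 ^ 2 := by
      simp only [dt, hw']; ring
    rw [h1]
    by_contra hcon
    apply hPQ
    have h2 : (Q - P).1 = 0 := by nlinarith [sq_nonneg (Q - P).1, sq_nonneg (Q - P).2]
    have h3 : (Q - P).2 = 0 := by nlinarith [sq_nonneg (Q - P).1, sq_nonneg (Q - P).2]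
    exact Prod.ext h2 h3
  obtain ⟨δ, h1, hδ⟩ := ((inT_near h w').and self_mem_nhdsWithin).exists
  have hδ' : (0 : ℝ) < δ := hδ
  have h2 : 0 < orient P Q (z + δ • w') := by
    rw [orient_add_smul]
    nlinarith [mul_pos hδ' hpos]
  obtain ⟨w, hw1, hw⟩ := exists_dir hR
  obtain ⟨ε, hg, h3, h4⟩ := ((gen_near hR hw1 hw (z + δ • w')).and ((inT_near h1 w).and
    (ev_pos (dt (Q - P) w) h2))).exists
  have h5 := (g2_gen hF hR hg).1 ⟨t, ht, h3⟩
  have h6 := hout _ h5
  rw [orient_add_smul] at h6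
  linarith

theorem g2_in {F : Finset Tri} {o : Tri} {p : ℕ → Pt} (hF : Pre F) (hR : Real F o p) :
    ∀ t ∈ F, ∀ z, InT p t z → InN p o z := by
  intro t ht z h
  have ho : (o.1, o.2.1, o.2.2) ∈ F := hR.mem
  exact ⟨edge_neg hF hR (edge_ne hR ho) (fun z hz => hz.1) ht h,
    edge_neg hF hR (edge_ne hR (hF.rot _ _ _ ho)) (fun z hz => hz.2.1) ht h,
    edge_neg hF hR (edge_ne hR (hF.rot2 ho)) (fun z hz => hz.2.2) ht h⟩

theorem g2_cover {F : Finset Tri} {o : Tri} {p : ℕ → Pt} (hF : Pre F) (hR : Real F o p) :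
    ∀ z, InN p o z → ∃ t ∈ F, t ∉ rots o ∧ 0 ≤ orient (p t.1) (p t.2.1) z ∧
    0 ≤ orient (p t.2.1) (p t.2.2) z ∧ 0 ≤ orient (p t.2.2) (p t.1) z := by
  intro z hz
  by_contra hcon
  push Not at hcon
  obtain ⟨w, hw1, hw⟩ := exists_dir hR
  have h1 : ∀ᶠ ε in 𝓝[>] (0 : ℝ), ∀ t ∈ F, ¬ InT p t (z + ε • w) := by
    rw [eventually_all_finset]
    intro t ht
    by_cases hto : t ∈ rots o
    · exact Eventually.of_forall fun ε h => absurd (inT_pos h) (not_lt.2 (real_neg hR hto).le)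
    · have h2 := hcon t ht hto
      by_cases ha : 0 ≤ orient (p t.1) (p t.2.1) z
      · by_cases hb : 0 ≤ orient (p t.2.1) (p t.2.2) z
        · filter_upwards [ev_neg (dt (p t.1 - p t.2.2) w) (h2 ha hb)] with ε hε h
          have := h.2.2
          rw [orient_add_smul] at this
          linarith
        · filter_upwards [ev_neg (dt (p t.2.2 - p t.2.1) w) (not_le.1 hb)] with ε hε h
          have := h.2.1
          rw [orient_add_smul] at this
          linarith
      · filter_upwards [ev_neg (dt (p t.2.1 - p t.1) w) (not_le.1 ha)] with ε hε h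
        have := h.1
        rw [orient_add_smul] at this
        linarith
  obtain ⟨ε, h2, h3, h4⟩ := (h1.and ((gen_near hR hw1 hw z).and (inN_near hz w))).exists
  obtain ⟨t, ht, h5⟩ := (g2_gen hF hR h3).2 h4
  exact h2 t ht h5

theorem g2 : G2Stmt := fun _ _ _ hF hR => ⟨g2_disj hF hR, g2_in hF hR, g2_cover hF hR⟩

end Pool.Agent.H98.RCR
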