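import Pool.Agent.H98.RCR.G2

/-!
# Project RCR, modules G3 and G4: directions of the edges at a vertex
-/

namespace Pool.Agent.H98.RCR

open Pool.Agent.H3.RCR Filter Topology

theorem ev_mul {α β : ℝ} (h : 0 < α ∨ α = 0 ∧ 0 < β) :
    ∀ᶠ ε in 𝓝[>] (0 : ℝ), 0 < ε * α + ε * ε * β := by
  rcases h with h | ⟨h, hb⟩
  · filter_upwards [ev_pos β h, self_mem_nhdsWithin] with ε h1 h2
    have h2' : (0 : ℝ) < ε := h2
    have := mul_pos h2' h1
    nlinarith
  · filter_upwards [self_mem_nhdsWithin] with ε h2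
    have h2' : (0 : ℝ) < ε := h2
    rw [h]
    have := mul_pos (mul_pos h2' h2') hb
    nlinarith

/-- the points `p a + ε D + ε² N` lie in the face `(a, b, c)` if `D` is in its cone; ties are
broken by `N` -/
theorem cone_ev {p : ℕ → Pt} {a b c : ℕ} {D N : Pt} (hpos : 0 < orient (p a) (p b) (p c))
    (h1 : 0 < dt (p b - p a) D ∨ dt (p b - p a) D = 0 ∧ 0 < dt (p b - p a) N)
    (h2 : 0 < dt D (p c - p a) ∨ dt D (p c - p a) = 0 ∧ 0 < dt N (p c - p a)) :
    ∀ᶠ ε in 𝓝[>] (0 : ℝ), InT p (a, b, c) (p a + (ε • D + (ε * ε) • N)) := by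
  have hc : Continuous (fun ε : ℝ => orient (p a) (p b) (p c) +
      (ε * dt (p c - p b) D + ε * ε * dt (p c - p b) N)) := by fun_prop
  have h0 : (0 : ℝ) < orient (p a) (p b) (p c) +
      (0 * dt (p c - p b) D + 0 * 0 * dt (p c - p b) N) := by simpa using hpos
  have h3 : ∀ᶠ ε in 𝓝[>] (0 : ℝ), 0 < orient (p a) (p b) (p c) +
      (ε * dt (p c - p b) D + ε * ε * dt (p c - p b) N) :=
    (nhdsWithin_le_nhds (s := Set.Ioi 0)) ((hc.tendsto 0).eventually (lt_mem_nhds h0))
  filter_upwards [ev_mul h1, ev_mul h2, h3] with ε h1 h2 h3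
  refine ⟨?_, ?_, ?_⟩
  · have : orient (p a) (p b) (p a + (ε • D + (ε * ε) • N)) =
        ε * dt (p b - p a) D + ε * ε * dt (p b - p a) N := by
      simp only [orient, dt, Prod.fst_sub, Prod.snd_sub, Prod.fst_add, Prod.snd_add,
        Prod.smul_fst, Prod.smul_snd, smul_eq_mul]
      ring
    simp only [this]
    exact h1
  · have : orient (p b) (p c) (p a + (ε • D + (ε * ε) • N)) = orient (p a) (p b) (p c) +
        (ε * dt (p c - p b) D + ε * ε * dt (p c - p b) N) := by
      simp only [orient, dt, Prod.fst_sub, Prod.snd_sub, Prod.fst_add, Prod.snd_add,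
        Prod.smul_fst, Prod.smul_snd, smul_eq_mul]
      ring
    simp only [this]
    exact h3
  · have : orient (p c) (p a) (p a + (ε • D + (ε * ε) • N)) =
        ε * dt D (p c - p a) + ε * ε * dt N (p c - p a) := by
      simp only [orient, dt, Prod.fst_sub, Prod.snd_sub, Prod.fst_add, Prod.snd_add,
        Prod.smul_fst, Prod.smul_snd, smul_eq_mul]
      ring
    simp only [this]
    exact h2

/-- two positive faces at `a` whose cones share a direction are equal -/
theorem cone_eq {F : Finset Tri} {o : Tri} {p : ℕ → Pt} (hF : Pre F) (hR : Real F o p)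
    {a b c b' c' : ℕ} {D N : Pt} (h : (a, b, c) ∈ F) (h' : (a, b', c') ∈ F)
    (ho : (a, b, c) ∉ rots o) (ho' : (a, b', c') ∉ rots o)
    (h1 : 0 < dt (p b - p a) D ∨ dt (p b - p a) D = 0 ∧ 0 < dt (p b - p a) N)
    (h2 : 0 < dt D (p c - p a) ∨ dt D (p c - p a) = 0 ∧ 0 < dt N (p c - p a))
    (h1' : 0 < dt (p b' - p a) D ∨ dt (p b' - p a) D = 0 ∧ 0 < dt (p b' - p a) N)
    (h2' : 0 < dt D (p c' - p a) ∨ dt D (p c' - p a) = 0 ∧ 0 < dt N (p c' - p a)) :
    b = b' ∧ c = c' := by
  obtain ⟨ε, e1, e2⟩ := ((cone_ev (hR.pos _ h ho) h1 h2).and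
    (cone_ev (hR.pos _ h' ho') h1' h2')).exists
  have h3 := g2_disj hF hR _ h _ h' _ e1 e2
  have hnd := hF.nd h
  rcases mem_rots.1 h3 with h4 | h4 | h4
  · simp only [Prod.mk.injEq] at h4
    exact ⟨h4.2.1.symm, h4.2.2.symm⟩
  · simp only [Prod.mk.injEq] at h4
    exact absurd h4.1 hnd.1
  · simp only [Prod.mk.injEq] at h4
    exact absurd h4.1.symm hnd.2.2

/-- `rots` of a face only depends on the face -/
theorem rots_eq {s t : Tri} (h : s ∈ rots t) : rots s = rots t := by
  obtain ⟨a, b, c⟩ := t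
  rcases mem_rots.1 h with rfl | rfl | rfl
  · rfl
  · ext x; simp only [mem_rots]; tauto
  · ext x; simp only [mem_rots]; tauto

/-- the two faces at an edge are not both the outer face -/
theorem not_both {F : Finset Tri} (hF : Pre F) {o : Tri} {a x c d : ℕ} (h : (a, x, c) ∈ F)
    (h1 : (a, x, c) ∈ rots o) (h2 : (x, a, d) ∈ rots o) : False := by
  have hnd := hF.nd h
  rw [← rots_eq h1] at h2
  rcases mem_rots.1 h2 with h4 | h4 | h4 <;> simp only [Prod.mk.injEq] at h4
  · exact hnd.1 h4.1.symm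
  · exact hnd.2.2 h4.2.1.symm
  · exact hnd.2.1 h4.1

/-- the left normal -/
theorem dt_normal {D : Pt} (hD : D ≠ 0) : 0 < dt D (-D.2, D.1) := by
  have h1 : dt D (-D.2, D.1) = D.1 ^ 2 + D.2 ^ 2 := by simp only [dt]; ring
  rw [h1]
  by_contra hcon
  apply hD
  have h2 : D.1 = 0 := by nlinarith [sq_nonneg D.1, sq_nonneg D.2]
  have h3 : D.2 = 0 := by nlinarith [sq_nonneg D.1, sq_nonneg D.2]
  exact Prod.ext h2 h3

theorem dt_negnormal (X : Pt) : dt (-(-X.2, X.1) : Pt) X = dt X (-X.2, X.1) := by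
  simp only [dt, Prod.fst_neg, Prod.snd_neg]; ring

theorem dt_swap (X Y : Pt) : dt X Y = - dt Y X := by simp only [dt]; ring

theorem dt_self (X : Pt) : dt X X = 0 := by simp only [dt]; ring

theorem dt_smul_left (X w : Pt) (r : ℝ) : dt (r • X) w = r * dt X w := by
  simp only [dt, Prod.smul_fst, Prod.smul_snd, smul_eq_mul]; ring

theorem orient_dt (A B C : Pt) : orient A B C = dt (B - A) (C - A) := rfl

theorem g3_aux {F : Finset Tri} {o : Tri} {p : ℕ → Pt} (hF : Pre F) (hR : Real F o p)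
    {a x y : ℕ} (hx : Adj F a x) (hy : Adj F a y) (hxy : x ≠ y) {r : ℝ} (hr : 0 < r)
    (he : p y - p a = r • (p x - p a)) : False := by
  obtain ⟨c, hc⟩ := hx
  obtain ⟨d, hd⟩ := hy
  obtain ⟨c', hc'⟩ := hF.opp _ _ _ hc
  obtain ⟨d', hd'⟩ := hF.opp _ _ _ hd
  set D := p x - p a with hD
  have hD0 : D ≠ 0 := edge_ne hR hc
  have hN := dt_normal hD0
  -- left faces
  have left : ¬ ((a, x, c) ∉ rots o ∧ (a, y, d) ∉ rots o) := by
    rintro ⟨h1, h2⟩
    have p1 := hR.pos _ hc h1
    have p2 := hR.pos _ hd h2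
    simp only [orient_dt, he, ← hD] at p1 p2
    rw [dt_smul_left] at p2
    have p2' : 0 < dt D (p d - p a) := by
      by_contra hcon
      nlinarith [mul_nonneg hr.le (sub_nonneg.2 (not_lt.1 hcon))]
    refine hxy (cone_eq hF hR hc hd h1 h2 (D := D) (N := (-D.2, D.1)) (Or.inr ⟨?_, ?_⟩)
      (Or.inl p1) (Or.inr ⟨?_, ?_⟩) (Or.inl p2')).1
    · rw [← hD]; exact dt_self _
    · rw [← hD]; exact hN
    · rw [he, dt_smul_left, dt_self, mul_zero]
    · rw [he, dt_smul_left]; exact mul_pos hr hN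
  -- right faces
  have hc2 : (a, c', x) ∈ F := hF.rot _ _ _ hc'
  have hd2 : (a, d', y) ∈ F := hF.rot _ _ _ hd'
  have right : ¬ ((a, c', x) ∉ rots o ∧ (a, d', y) ∉ rots o) := by
    rintro ⟨h1, h2⟩
    have p1 := hR.pos _ hc2 h1
    have p2 := hR.pos _ hd2 h2
    simp only [orient_dt, he, ← hD] at p1 p2
    rw [dt_smul] at p2
    have p2' : 0 < dt (p d' - p a) D := by
      by_contra hcon
      nlinarith [mul_nonneg hr.le (sub_nonneg.2 (not_lt.1 hcon))]
    have hN2 : 0 < dt (-(-D.2, D.1) : Pt) D := by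
      have : dt (-(-D.2, D.1) : Pt) D = dt D (-D.2, D.1) := by
        simp only [dt, Prod.fst_neg, Prod.snd_neg]; ring
      rw [this]; exact hN
    refine hxy (cone_eq hF hR hc2 hd2 h1 h2 (D := D) (N := -(-D.2, D.1))
      (Or.inl p1) (Or.inr ⟨?_, ?_⟩) (Or.inl p2') (Or.inr ⟨?_, ?_⟩)).2
    · rw [← hD]; exact dt_self _
    · rw [← hD]; exact hN2
    · rw [he, dt_smul, dt_self, mul_zero]
    · rw [he, dt_smul]; exact mul_pos hr hN2
  have hnd := hF.nd hc
  have hnd2 := hF.nd hd
  have rot_c : (a, c', x) ∈ rots o → (x, a, c') ∈ rots o := fun h =>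
    mem_rots_trans (by simp [rots]) h
  have rot_d : (a, d', y) ∈ rots o → (y, a, d') ∈ rots o := fun h =>
    mem_rots_trans (by simp [rots]) h
  have hor1 : orient (p a) (p x) (p y) = 0 := by
    rw [orient_dt, he, ← hD, dt_smul, dt_self, mul_zero]
  have hor2 : orient (p a) (p y) (p x) = 0 := by
    rw [orient_dt, he, ← hD, dt_smul_left, dt_self, mul_zero]
  by_cases l1 : (a, x, c) ∈ rots o
  · by_cases r1 : (a, c', x) ∈ rots o
    · exact not_both hF hc l1 (rot_c r1)
    · have r2 : (a, d', y) ∈ rots o := by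
        by_contra r2; exact right ⟨r1, r2⟩
      have h5 := rot_d r2
      rw [← rots_eq l1] at h5
      rcases mem_rots.1 h5 with h4 | h4 | h4 <;> simp only [Prod.mk.injEq] at h4
      · exact hnd2.1 h4.1.symm
      · exact hxy h4.1.symm
      · have := real_neg hR l1
        simp only [← h4.1] at this
        rw [hor1] at this
        exact lt_irrefl _ this
  · have l2 : (a, y, d) ∈ rots o := by
      by_contra l2; exact left ⟨l1, l2⟩
    by_cases r2 : (a, d', y) ∈ rots o
    · exact not_both hF hd l2 (rot_d r2)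
    · have r1 : (a, c', x) ∈ rots o := by
        by_contra r1; exact right ⟨r1, r2⟩
      have h5 := rot_c r1
      rw [← rots_eq l2] at h5
      rcases mem_rots.1 h5 with h4 | h4 | h4 <;> simp only [Prod.mk.injEq] at h4
      · exact hnd.1 h4.1.symm
      · exact hxy h4.1
      · have := real_neg hR l2
        simp only [← h4.1] at this
        rw [hor2] at this
        exact lt_irrefl _ this

theorem g3 : G3Stmt := fun _ _ _ hF hR _ _ _ hx hy hxy _ hr he => g3_aux hF hR hx hy hxy hr he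

theorem g4 : G4Stmt := by
  intro F o p hF hR a b c d h ho had hdb hdc
  rintro ⟨h1, h2⟩
  have hpos : 0 < dt (p b - p a) (p c - p a) := hR.pos _ h ho
  have hab : Adj F a b := ⟨c, h⟩
  have hac : Adj F a c := hF.adj_symm ⟨b, hF.rot2 h⟩
  have hD0 : p d - p a ≠ 0 := by
    obtain ⟨e, he⟩ := had
    exact edge_ne hR he
  have hpl : ∀ B C D : Pt, dt B C • D = dt D C • B + dt B D • C := by
    intro B C D
    ext <;> simp only [dt, Prod.smul_fst, Prod.smul_snd, Prod.fst_add, Prod.snd_add,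
      smul_eq_mul] <;> ring
  rcases h1.eq_or_lt with h1 | h1
  · -- parallel to b
    have h3 := hpl (p b - p a) (p c - p a) (p d - p a)
    rw [← h1, zero_smul, add_zero] at h3
    have h4 : p d - p a = (dt (p d - p a) (p c - p a) / dt (p b - p a) (p c - p a)) •
        (p b - p a) := by
      rw [div_eq_inv_mul, mul_smul, ← h3, smul_smul, inv_mul_cancel₀ hpos.ne', one_smul]
    have h5 : 0 < dt (p d - p a) (p c - p a) := by
      rcases h2.eq_or_lt with h2 | h2
      · exfalso; apply hD0; rw [h4, ← h2, zero_div, zero_smul]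
      · exact h2
    exact g3_aux hF hR hab had hdb.symm (div_pos h5 hpos) h4
  · rcases h2.eq_or_lt with h2 | h2
    · have h3 := hpl (p b - p a) (p c - p a) (p d - p a)
      rw [← h2, zero_smul, zero_add] at h3
      have h4 : p d - p a = (dt (p b - p a) (p d - p a) / dt (p b - p a) (p c - p a)) •
          (p c - p a) := by
        rw [div_eq_inv_mul, mul_smul, ← h3, smul_smul, inv_mul_cancel₀ hpos.ne', one_smul]
      exact g3_aux hF hR hac had hdc.symm (div_pos h1 hpos) h4
    · obtain ⟨e, he⟩ := had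
      obtain ⟨e', he'⟩ := hF.opp _ _ _ he
      have he2 : (a, e', d) ∈ F := hF.rot _ _ _ he'
      have hN := dt_normal hD0
      by_cases hl : (a, d, e) ∈ rots o
      · have hr : (a, e', d) ∉ rots o := by
          intro hr
          exact not_both (d := e') hF he hl (mem_rots_trans (t := (a, e', d)) (by simp [rots]) hr)
        have p1 := hR.pos _ he2 hr
        have hN2 : 0 < dt (-(-(p d - p a).2, (p d - p a).1) : Pt) (p d - p a) := by
          rw [dt_negnormal]; exact hN
        exact hdc.symm (cone_eq hF hR h he2 ho hr (D := p d - p a)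
          (N := -(-(p d - p a).2, (p d - p a).1)) (Or.inl h1) (Or.inl h2) (Or.inl p1)
          (Or.inr ⟨dt_self _, hN2⟩)).2
      · have p1 := hR.pos _ he hl
        exact hdb.symm (cone_eq hF hR h he ho hl (D := p d - p a)
          (N := (-(p d - p a).2, (p d - p a).1)) (Or.inl h1) (Or.inl h2)
          (Or.inr ⟨dt_self _, hN⟩) (Or.inl p1)).1

end Pool.Agent.H98.RCR
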